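import Mathlib
import Pool.Agent.V11287.MS.Common
import Pool.Agent.V11287.MS.Mers
import Pool.Agent.H447R2.ML.Luc

set_option autoImplicit false

/-!
# Lucas sequences with a typical parameter: the prime terms do not cluster

Let `U_n (P, Q)` and `V_n (P, Q)` be the Lucas sequence and the companion Lucas sequence with real
parameters.  For `P = 1`, `Q = -1` they are the Fibonacci numbers and the Lucas numbers.  For a real
sequence `s` let `Exps s` be the set of the primes `p` for which the `p`-rough part (the product,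
with multiplicity, of the prime factors larger than `p`) of `⌊s p⌋` is prime.  A prime `p > 5` is in
`Exps (U (1, -1))` if and only if the Fibonacci number with index `p` is prime, and in
`Exps (V (1, -1))` if and only if the Lucas number with index `p` is prime.

The known results on real solutions of the Fibonacci recurrence keep the golden base and let the
amplitude vary.  Here the parameter `P`, that is, the base itself, varies.  For every real `Q` and
almost every real `P` the exponents of both sequences are not closer to each other than those of a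
Poisson process of constant intensity on the logarithmic scale: for every `δ > 0` all but finitely
many pairs `p < q` of exponents satisfy `q - p ≥ p / (log p) ^ (1 + δ)`, there are only finitely many
pairs of exponents `p`, `a p + b`; and only finitely many primes are exponents of both sequences.
This holds in general along all curves `A x ^ p - B c ^ p` of class `C ^ 2` in the base `x`.
-/

namespace Pool.Agent.Results.MP_5893d7_nt.AlmostEveryParameter

open Filter Topology MeasureTheory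

/-- The product, with multiplicity, of the prime factors of `m` that are larger than `p`. -/
def roughPart (p m : ℕ) : ℕ := (m.primeFactorsList.filter (fun r => p < r)).prod

/-- The exponents of the real sequence `s`. -/
def Exps (s : ℕ → ℝ) : Set ℕ := {p | p.Prime ∧ (roughPart p ⌊s p⌋₊).Prime}

/-- The exponents of `s` are spread: small gaps and affine pairs are rare. -/
structure Spread (s : ℕ → ℝ) : Prop where
  /-- for every `δ > 0`, all but finitely many pairs of exponents `p < q` satisfy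
  `q - p ≥ p / (log p) ^ (1 + δ)` -/
  gaps : ∀ δ : ℝ, 0 < δ → ∃ N : ℕ, ∀ p ∈ Exps s, ∀ q ∈ Exps s,
    N ≤ p → p < q → (p : ℝ) / (Real.log p) ^ (1 + δ) ≤ q - p
  /-- there are only finitely many exponents `p` for which `a p + b` is an exponent as well -/
  affine : ∀ a b : ℕ, 1 ≤ a → ¬ (a = 1 ∧ b = 0) → {p | p ∈ Exps s ∧ a * p + b ∈ Exps s}.Finite

/-- The Lucas sequence `U_n (P, Q)`. -/
def lucasU (P Q : ℝ) : ℕ → ℝ
  | 0 => 0
  | 1 => 1
  | n + 2 => P * lucasU P Q (n + 1) - Q * lucasU P Q n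

/-- The companion Lucas sequence `V_n (P, Q)`. -/
def lucasV (P Q : ℝ) : ℕ → ℝ
  | 0 => 2
  | 1 => P
  | n + 2 => P * lucasV P Q (n + 1) - Q * lucasV P Q n

/-- The Lucas numbers. -/
def L : ℕ → ℕ
  | 0 => 2
  | 1 => 1
  | (n + 2) => L (n + 1) + L n

lemma lucasU_fib (n : ℕ) : lucasU 1 (-1) n = Nat.fib n := by
  induction n using Nat.twoStepInduction with
  | zero => simp [lucasU]
  | one => simp [lucasU]
  | more n h1 h2 =>
    rw [lucasU, h1, h2, Nat.fib_add_two]
    push_cast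
    ring

lemma lucasV_L (n : ℕ) : lucasV 1 (-1) n = L n := by
  induction n using Nat.twoStepInduction with
  | zero => simp [lucasV, L]
  | one => simp [lucasV, L]
  | more n h1 h2 =>
    rw [lucasV, h1, h2]
    show _ = ((L (n + 1) + L n : ℕ) : ℝ)
    push_cast
    ring

lemma fib_eq (n : ℕ) : Pool.Agent.H447R2.ML.U 1 n = Nat.fib n := by
  induction n using Nat.twoStepInduction with
  | zero => rfl
  | one => rfl
  | more n h1 h2 =>
    rw [Pool.Agent.H447R2.ML.U_add_two, h1, h2, Nat.fib_add_two]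
    ring

lemma luc_eq (n : ℕ) : Pool.Agent.H447R2.ML.V 1 n = L n := by
  induction n using Nat.twoStepInduction with
  | zero => rfl
  | one => rfl
  | more n h1 h2 =>
    show _ = L (n + 1) + L n
    rw [Pool.Agent.H447R2.ML.V_add_two, h1, h2]
    ring

lemma exps_fib {p : ℕ} (h5 : 5 < p) :
    p ∈ Exps (lucasU 1 (-1)) ↔ p.Prime ∧ (Nat.fib p).Prime := by
  refine and_congr_right fun hp => ?_
  have hd : ¬ p ∣ 1 ^ 2 + 4 := by
    intro h
    have := Nat.le_of_dvd (by norm_num) h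
    omega
  have h : Pool.Agent.H305R2.roughPart p ⌊lucasU 1 (-1) p⌋₊ = Nat.fib p := by
    rw [lucasU_fib, Nat.floor_natCast]
    refine Pool.Agent.V11287.MS.roughPart_eq_self ?_ fun q hq h => ?_
    · exact (Nat.fib_pos.2 (by omega)).ne'
    · rw [← fib_eq] at h
      exact Pool.Agent.H447R2.ML.lt_of_dvd_U 1 hp (by omega) hd hq h
  have h2 : roughPart p ⌊lucasU 1 (-1) p⌋₊ = Nat.fib p := h
  rw [h2]

lemma L_pos (n : ℕ) : 0 < L n := by
  induction n using Nat.twoStepInduction with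
  | zero => simp [L]
  | one => simp [L]
  | more n h1 h2 =>
    show 0 < L (n + 1) + L n
    omega

lemma exps_luc {p : ℕ} (h5 : 5 < p) :
    p ∈ Exps (lucasV 1 (-1)) ↔ p.Prime ∧ (L p).Prime := by
  refine and_congr_right fun hp => ?_
  have hd : ¬ p ∣ 1 := fun h => hp.one_lt.ne' (Nat.dvd_one.1 h)
  have h : Pool.Agent.H305R2.roughPart p ⌊lucasV 1 (-1) p⌋₊ = L p := by
    rw [lucasV_L, Nat.floor_natCast]
    refine Pool.Agent.V11287.MS.roughPart_eq_self (L_pos p).ne' fun q hq h => ?_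
    rw [← luc_eq] at h
    exact Pool.Agent.H447R2.ML.lt_of_dvd_V 1 hp (by omega) hd hq
      (fun h' => hq.one_lt.ne' (Nat.dvd_one.1 h')) h
  have h2 : roughPart p ⌊lucasV 1 (-1) p⌋₊ = L p := h
  rw [h2]

lemma closedU (α β : ℝ) (n : ℕ) :
    lucasU (α + β) (α * β) n * (α - β) = α ^ n - β ^ n := by
  induction n using Nat.twoStepInduction with
  | zero => simp [lucasU]
  | one => simp [lucasU]
  | more n h1 h2 =>
    rw [lucasU]
    calc ((α + β) * lucasU (α + β) (α * β) (n + 1) - α * β * lucasU (α + β) (α * β) n) * (α - β)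
        = (α + β) * (lucasU (α + β) (α * β) (n + 1) * (α - β)) -
            α * β * (lucasU (α + β) (α * β) n * (α - β)) := by ring
      _ = _ := by rw [h1, h2]; ring

lemma closedV (α β : ℝ) (n : ℕ) : lucasV (α + β) (α * β) n = α ^ n + β ^ n := by
  induction n using Nat.twoStepInduction with
  | zero => norm_num [lucasV]
  | one => simp [lucasV]
  | more n h1 h2 =>
    rw [lucasV, h1, h2]
    ring

lemma sparse_open {U : Set ℝ} (hU : IsOpen U) (hU1 : ∀ x ∈ U, 1 < x) {A B c : ℝ → ℝ}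
    (hA : ContDiffOn ℝ 2 A U) (hB : ContDiffOn ℝ 2 B U) (hc : ContDiffOn ℝ 2 c U)
    (hpos : ∀ x ∈ U, 0 < A x) (hcx : ∀ x ∈ U, |c x| < x) {R : Set (ℕ × ℕ)}
    (hR : ∀ r ∈ R, r.1 < r.2)
    (hs : Summable (R.indicator fun r => Real.log r.1 / r.1 * (Real.log r.2 / r.2))) :
    ∀ᵐ x : ℝ, x ∈ U → {r | r ∈ R ∧ r.1 ∈ Exps (fun p => A x * x ^ p - B x * c x ^ p) ∧
      r.2 ∈ Exps (fun p => A x * x ^ p - B x * c x ^ p)}.Finite :=
  Pool.Agent.V11287.MS.pairs_open hU hU1 hA hB hc hpos hcx hR hs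

lemma spread_open {U : Set ℝ} (hU : IsOpen U) (hU1 : ∀ x ∈ U, 1 < x) {A B c : ℝ → ℝ}
    (hA : ContDiffOn ℝ 2 A U) (hB : ContDiffOn ℝ 2 B U) (hc : ContDiffOn ℝ 2 c U)
    (hpos : ∀ x ∈ U, 0 < A x) (hcx : ∀ x ∈ U, |c x| < x) :
    ∀ᵐ x : ℝ, x ∈ U → Spread (fun p => A x * x ^ p - B x * c x ^ p) := by
  have h1 := ae_all_iff.2 fun m : ℕ => sparse_open hU hU1 hA hB hc hpos hcx
    (R := Pool.Agent.V11287.MS.gapSet (1 / ((m : ℝ) + 1))) (fun r hr => hr.2.2.1)
    (Pool.Agent.V11287.MS.gap_summable (by positivity))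
  have h2 := ae_all_iff.2 fun a : ℕ => ae_all_iff.2 fun b : ℕ =>
    sparse_open hU hU1 hA hB hc hpos hcx
    (R := {r | (1 ≤ a ∧ ¬ (a = 1 ∧ b = 0)) ∧ r ∈ Pool.Agent.V11287.MS.affSet a b})
    (fun r hr => by
      obtain ⟨⟨ha, hab⟩, hr1, hr2⟩ := hr
      rw [hr2]
      rcases Nat.lt_or_ge 1 a with h | h
      · have : 2 * r.1 ≤ a * r.1 := Nat.mul_le_mul_right _ h
        omega
      · have ha1 : a = 1 := by omega
        subst ha1
        have hb : b ≠ 0 := fun hb => hab ⟨rfl, hb⟩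
        omega)
    (by
      by_cases hab : 1 ≤ a ∧ ¬ (a = 1 ∧ b = 0)
      · have e : {r | (1 ≤ a ∧ ¬ (a = 1 ∧ b = 0)) ∧ r ∈ Pool.Agent.V11287.MS.affSet a b} =
            Pool.Agent.V11287.MS.affSet a b := by
          ext r
          exact ⟨fun h => h.2, fun h => ⟨hab, h⟩⟩
        rw [e]
        exact Pool.Agent.V11287.MS.aff_summable hab.1 b
      · have e : {r | (1 ≤ a ∧ ¬ (a = 1 ∧ b = 0)) ∧ r ∈ Pool.Agent.V11287.MS.affSet a b} = ∅ := by
          ext r
          simp only [Set.mem_setOf_eq, Set.mem_empty_iff_false, iff_false]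
          exact fun h => hab h.1
        rw [e, Set.indicator_empty]
        exact summable_zero)
  filter_upwards [h1, h2] with x hx1 hx2 hxU
  set s : ℕ → ℝ := fun p => A x * x ^ p - B x * c x ^ p with hs
  refine ⟨fun δ hδ => ?_, fun a b ha hab => ?_⟩
  · obtain ⟨m, hm⟩ := exists_nat_one_div_lt hδ
    obtain ⟨M, hM⟩ := ((hx1 m hxU).image Prod.fst).bddAbove
    refine ⟨max (M + 1) 3, fun p hp q hq hN hpq => ?_⟩
    have hp3 : 3 ≤ p := (le_max_right _ _).trans hN
    have hp3' : (3 : ℝ) ≤ p := by exact_mod_cast hp3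
    by_contra hlt
    push Not at hlt
    have hmem : (p, q) ∈ {r | r ∈ Pool.Agent.V11287.MS.gapSet (1 / ((m : ℝ) + 1)) ∧
        r.1 ∈ Exps s ∧ r.2 ∈ Exps s} := by
      refine ⟨⟨hp.1, hq.1, hpq, ?_⟩, hp, hq⟩
      refine hlt.trans_le ?_
      unfold Pool.Agent.V11287.MS.gp
      have hlog : 1 ≤ Real.log p := by
        rw [Real.le_log_iff_exp_le (by linarith)]
        have := Real.exp_one_lt_d9
        linarith
      have h1 : (Real.log p) ^ (1 + 1 / ((m : ℝ) + 1)) ≤ (Real.log p) ^ (1 + δ) :=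
        Real.rpow_le_rpow_of_exponent_le hlog (by linarith)
      have h2 : 0 < (Real.log p) ^ (1 + 1 / ((m : ℝ) + 1)) := by positivity
      exact div_le_div_of_nonneg_left (by linarith) h2 h1
    have h3 : p ≤ M := hM ⟨(p, q), hmem, rfl⟩
    have h4 : M + 1 ≤ p := (le_max_left _ _).trans hN
    omega
  · have h3 := (hx2 a b hxU).image Prod.fst
    refine ((Set.finite_lt_nat 3).union h3).subset ?_
    rintro p ⟨hp1, hp2⟩
    by_cases hp3 : p < 3
    · exact Or.inl hp3
    · exact Or.inr ⟨(p, a * p + b), ⟨⟨⟨ha, hab⟩, by show 3 ≤ p; omega, rfl⟩, hp1, hp2⟩, rfl⟩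

lemma spread_lucas (Q : ℝ) :
    ∀ᵐ P : ℝ, ∀ α : ℝ, max 1 (Real.sqrt |Q|) < α → α + Q / α = P →
      Spread (lucasU P Q) ∧ Spread (lucasV P Q) ∧
        (Exps (lucasU P Q) ∩ Exps (lucasV P Q)).Finite := by
  set U : Set ℝ := Set.Ioi (max 1 (Real.sqrt |Q|)) with hUd
  have hU1 : ∀ x ∈ U, 1 < x := fun x hx => (le_max_left _ _).trans_lt hx
  have hU2 : ∀ x ∈ U, |Q| < x ^ 2 := fun x hx =>
    (Real.sqrt_lt' (by linarith [hU1 x hx])).1 ((le_max_right _ _).trans_lt hx)
  have hU3 : ∀ x ∈ U, |Q / x| < x := fun x hx => by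
    have h1 : 0 < x := by linarith [hU1 x hx]
    rw [abs_div, abs_of_pos h1, div_lt_iff₀ h1, ← sq]
    exact hU2 x hx
  have hU4 : ∀ x ∈ U, 0 < x - Q / x := fun x hx => by
    have := (abs_lt.1 (hU3 x hx)).2
    linarith
  have hne : ∀ x ∈ U, x ≠ 0 := fun x hx => by
    have h1 : 0 < x := by linarith [hU1 x hx]
    exact h1.ne'
  have hc : ContDiffOn ℝ 2 (fun x : ℝ => Q / x) U := contDiffOn_const.div contDiffOn_id hne
  have hA : ContDiffOn ℝ 2 (fun x : ℝ => 1 / (x - Q / x)) U :=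
    contDiffOn_const.div (contDiffOn_id.sub hc) fun x hx => (hU4 x hx).ne'
  have h1 : ContDiffOn ℝ 2 (fun _ : ℝ => (1 : ℝ)) U := contDiffOn_const
  have h1n : ContDiffOn ℝ 2 (fun _ : ℝ => (-1 : ℝ)) U := contDiffOn_const
  have hsU := spread_open isOpen_Ioi hU1 hA hA hc (fun x hx => one_div_pos.2 (hU4 x hx)) hU3
  have hsV := spread_open isOpen_Ioi hU1 h1 h1n hc (fun x hx => one_pos) hU3
  have hcom := Pool.Agent.V11287.MS.common_open isOpen_Ioi hU1 hA hA hc
    (fun x hx => one_div_pos.2 (hU4 x hx)) hU3 h1 h1n hc (fun x hx => one_pos) hU3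
  have hd : DifferentiableOn ℝ (fun x : ℝ => x + Q / x) U :=
    (contDiffOn_id.add hc).differentiableOn (by norm_num)
  have hall : ∀ᵐ x : ℝ, x ∈ U → (Spread (fun p => 1 / (x - Q / x) * x ^ p -
      1 / (x - Q / x) * (Q / x) ^ p) ∧ Spread (fun p => 1 * x ^ p - (-1) * (Q / x) ^ p)) ∧
      (Exps (fun p => 1 / (x - Q / x) * x ^ p - 1 / (x - Q / x) * (Q / x) ^ p) ∩
        Exps (fun p => 1 * x ^ p - (-1) * (Q / x) ^ p)).Finite := by
    filter_upwards [hsU, hsV, hcom] with x hx1 hx2 hx3 hxU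
    refine ⟨⟨hx1 hxU, hx2 hxU⟩, hx3 hxU ?_⟩
    have hx0 := hne x hxU
    have hd1 : HasDerivAt (fun y : ℝ => 1 / (y - Q / y)) (-(1 + Q / x ^ 2) / (x - Q / x) ^ 2) x := by
      have e1 : HasDerivAt (fun y : ℝ => y - Q / y) (1 + Q / x ^ 2) x := by
        have e2 : HasDerivAt (fun y : ℝ => Q / y) (-(Q / x ^ 2)) x := by
          have e3 := (hasDerivAt_inv hx0).const_mul Q
          have e4 : Q * -(x ^ 2)⁻¹ = -(Q / x ^ 2) := by rw [div_eq_mul_inv]; ring
          rw [e4] at e3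
          exact e3.congr_of_eventuallyEq (Eventually.of_forall fun y => div_eq_mul_inv _ _)
        have e5 := (hasDerivAt_id x).sub e2
        rw [sub_neg_eq_add] at e5
        exact e5
      have e6 := e1.inv (hU4 x hxU).ne'
      exact e6.congr_of_eventuallyEq (Eventually.of_forall fun y => one_div _)
    rw [hd1.deriv, deriv_const, mul_zero, mul_one]
    have hq : 0 < 1 + Q / x ^ 2 := by
      have h5 : |Q / x ^ 2| < 1 := by
        rw [abs_div, abs_of_pos (show (0 : ℝ) < x ^ 2 by positivity),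
          div_lt_one (by positivity)]
        exact hU2 x hxU
      have := (abs_lt.1 h5).1
      linarith
    have hq2 : 0 < (x - Q / x) ^ 2 := pow_pos (hU4 x hxU) 2
    exact (div_neg_of_neg_of_pos (by linarith) hq2).ne
  filter_upwards [Pool.Agent.Y719.Mer.ae_image hd hall] with P hP α hα hαP
  have h2 := hP α hα hαP
  have e1 : α * (Q / α) = Q := by field_simp [hne α hα]
  have e : (fun p : ℕ => 1 / (α - Q / α) * α ^ p - 1 / (α - Q / α) * (Q / α) ^ p) = lucasU P Q := by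
    funext n
    have h3 := closedU α (Q / α) n
    rw [e1, hαP] at h3
    rw [← mul_sub, ← h3, mul_comm (lucasU P Q n), ← mul_assoc,
      one_div_mul_cancel (hU4 α hα).ne', one_mul]
  have e' : (fun p : ℕ => 1 * α ^ p - (-1) * (Q / α) ^ p) = lucasV P Q := by
    funext n
    have h3 := closedV α (Q / α) n
    rw [e1, hαP] at h3
    rw [h3]
    ring
  rw [e, e'] at h2
  exact ⟨h2.1.1, h2.1.2, h2.2⟩

/-- (1) For `P = 1`, `Q = -1` the sequences are those of the Fibonacci and of the Lucas numbers, and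
the exponents `p > 5` are the primes with `Nat.fib p` or `L p` prime.
(2) For every real `Q` and almost every real `P`, if `P = α + Q / α` with `α > 1`, `α ^ 2 > |Q|`
(so that `U_n (P, Q) = (α ^ n - (Q / α) ^ n) / (α - Q / α)`, `V_n (P, Q) = α ^ n + (Q / α) ^ n`), the
exponents of `U (P, Q)` and those of `V (P, Q)` are spread, and only finitely many primes are exponents
of both.
(3), (4) Let `U` be an open set of reals larger than `1` and `A > 0`, `B`, `c` functions of class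
`C ^ 2` on `U` with `|c x| < x`, `s_x p = A x * x ^ p - B x * c x ^ p`.  For every set `R` of pairs
`p < q` with `∑_{(p,q) ∈ R} (log p / p) (log q / q) < ∞` and almost every `x ∈ U` only finitely many
pairs in `R` consist of two exponents of `s_x`; and for almost every `x ∈ U` the exponents of `s_x`
are spread.
(5) Two such curves over the same `U` have, for almost every `x ∈ U` with
`A₁' x / A₁ x ≠ A₂' x / A₂ x`, only finitely many common exponents. -/
theorem result :
    (∀ n : ℕ, lucasU 1 (-1) n = Nat.fib n ∧ lucasV 1 (-1) n = L n) ∧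
    (∀ p : ℕ, 5 < p → (p ∈ Exps (lucasU 1 (-1)) ↔ p.Prime ∧ (Nat.fib p).Prime) ∧
      (p ∈ Exps (lucasV 1 (-1)) ↔ p.Prime ∧ (L p).Prime)) ∧
    (∀ Q : ℝ, ∀ᵐ P : ℝ, ∀ α : ℝ, max 1 (Real.sqrt |Q|) < α → α + Q / α = P →
      Spread (lucasU P Q) ∧ Spread (lucasV P Q) ∧
        (Exps (lucasU P Q) ∩ Exps (lucasV P Q)).Finite) ∧
    (∀ U : Set ℝ, IsOpen U → (∀ x ∈ U, 1 < x) → ∀ A B c : ℝ → ℝ,
      ContDiffOn ℝ 2 A U → ContDiffOn ℝ 2 B U → ContDiffOn ℝ 2 c U →
      (∀ x ∈ U, 0 < A x) → (∀ x ∈ U, |c x| < x) → ∀ R : Set (ℕ × ℕ), (∀ r ∈ R, r.1 < r.2) →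
      Summable (R.indicator fun r => Real.log r.1 / r.1 * (Real.log r.2 / r.2)) →
      ∀ᵐ x : ℝ, x ∈ U → {r | r ∈ R ∧ r.1 ∈ Exps (fun p => A x * x ^ p - B x * c x ^ p) ∧
        r.2 ∈ Exps (fun p => A x * x ^ p - B x * c x ^ p)}.Finite) ∧
    (∀ U : Set ℝ, IsOpen U → (∀ x ∈ U, 1 < x) → ∀ A B c : ℝ → ℝ,
      ContDiffOn ℝ 2 A U → ContDiffOn ℝ 2 B U → ContDiffOn ℝ 2 c U →
      (∀ x ∈ U, 0 < A x) → (∀ x ∈ U, |c x| < x) →
      ∀ᵐ x : ℝ, x ∈ U → Spread (fun p => A x * x ^ p - B x * c x ^ p)) ∧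
    (∀ U : Set ℝ, IsOpen U → (∀ x ∈ U, 1 < x) → ∀ A₁ B₁ c₁ A₂ B₂ c₂ : ℝ → ℝ,
      ContDiffOn ℝ 2 A₁ U → ContDiffOn ℝ 2 B₁ U → ContDiffOn ℝ 2 c₁ U →
      ContDiffOn ℝ 2 A₂ U → ContDiffOn ℝ 2 B₂ U → ContDiffOn ℝ 2 c₂ U →
      (∀ x ∈ U, 0 < A₁ x ∧ |c₁ x| < x ∧ 0 < A₂ x ∧ |c₂ x| < x) →
      ∀ᵐ x : ℝ, x ∈ U → deriv A₁ x * A₂ x ≠ A₁ x * deriv A₂ x →
        (Exps (fun p => A₁ x * x ^ p - B₁ x * c₁ x ^ p) ∩
          Exps (fun p => A₂ x * x ^ p - B₂ x * c₂ x ^ p)).Finite) :=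
  ⟨fun n => ⟨lucasU_fib n, lucasV_L n⟩, fun _ h5 => ⟨exps_fib h5, exps_luc h5⟩, spread_lucas,
    fun U hU hU1 A B c hA hB hc hpos hcx R hR hs => sparse_open hU hU1 hA hB hc hpos hcx hR hs,
    fun U hU hU1 A B c hA hB hc hpos hcx => spread_open hU hU1 hA hB hc hpos hcx,
    fun U hU hU1 A₁ B₁ c₁ A₂ B₂ c₂ hA₁ hB₁ hc₁ hA₂ hB₂ hc₂ h =>
      Pool.Agent.V11287.MS.common_open hU hU1 hA₁ hB₁ hc₁ (fun x hx => (h x hx).1)
        (fun x hx => (h x hx).2.1) hA₂ hB₂ hc₂ (fun x hx => (h x hx).2.2.1)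
        (fun x hx => (h x hx).2.2.2)⟩

end Pool.Agent.Results.MP_5893d7_nt.AlmostEveryParameter
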