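import Mathlib
import Pool.Agent.V60.Gap.JFin
import Pool.Agent.H447R2.ML.Spec

set_option autoImplicit false

/-!
# Fibonacci and Lucas numbers: common exponents are finite in number, for almost every amplitude

The real solutions of `T (n + 2) = T (n + 1) + T n` are the sequences
`T β B n = β φ ^ n + B ψ ^ n` with `φ = (1 + √5) / 2`, `ψ = (1 - √5) / 2`.  For `β = 1 / √5` the
sequence `T β (-β)` is the Fibonacci sequence and `T (√5 β) 1` the Lucas sequence; in general
`T (√5 β) (-√5 B) n = T β B (n - 1) + T β B (n + 1)` is the companion of the solution `T β B`.  Let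
`W β B p` be the `p`-rough part (the product, with multiplicity, of the prime factors larger than `p`)
of `⌊T β B p⌋`; for the Fibonacci and the Lucas numbers this is the number with the index `p` itself,
for all primes `p > 5`.

We prove: for all real `B`, `B'` and almost every `β > 0` only finitely many primes `p` have both
`W β B p` and `W (√5 β) B' p` prime; more precisely, for every `ε > 0` and all large primes `p`, `q`
with `W β B p` and `W (√5 β) B' q` prime, `|p - q| ≥ min (p, q) / (log min (p, q)) ^ (1 + ε)`.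
-/

namespace Pool.Agent.Results.MP_5893d7_nt.FibonacciAndLucas

open Filter Topology MeasureTheory

/-- The Lucas numbers. -/
def L : ℕ → ℕ
  | 0 => 2
  | 1 => 1
  | (n + 2) => L (n + 1) + L n

/-- The golden ratio. -/
noncomputable def φ : ℝ := (1 + Real.sqrt 5) / 2

/-- The conjugate of the golden ratio. -/
noncomputable def ψ : ℝ := (1 - Real.sqrt 5) / 2

/-- The real solutions of the Fibonacci recurrence. -/
noncomputable def T (β B : ℝ) (n : ℕ) : ℝ := β * φ ^ n + B * ψ ^ n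

/-- The product, with multiplicity, of the prime factors of `m` that are larger than `p`. -/
def roughPart (p m : ℕ) : ℕ := (m.primeFactorsList.filter (fun r => p < r)).prod

/-- The `p`-rough part of `⌊T β B p⌋`. -/
noncomputable def W (β B : ℝ) (p : ℕ) : ℕ := roughPart p ⌊T β B p⌋₊

lemma sqrt5_sq : Real.sqrt 5 ^ 2 = 5 := Real.sq_sqrt (by norm_num)

lemma sqrt5_pos : 0 < Real.sqrt 5 := Real.sqrt_pos.2 (by norm_num)

lemma one_lt_phi : 1 < φ := by
  unfold φ
  nlinarith [sqrt5_sq, sqrt5_pos]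

lemma phi_add : φ + ψ = ((1 : ℤ) : ℝ) := by unfold φ ψ; push_cast; ring

lemma phi_mul : φ * ψ = -1 := by unfold φ ψ; nlinarith [sqrt5_sq]

lemma phi_sq : φ ^ 2 = φ + 1 := by unfold φ; nlinarith [sqrt5_sq]

lemma psi_sq : ψ ^ 2 = ψ + 1 := by unfold ψ; nlinarith [sqrt5_sq]

lemma T_rec (β B : ℝ) (n : ℕ) : T β B (n + 2) = T β B (n + 1) + T β B n := by
  unfold T
  rw [pow_add φ n 2, pow_add ψ n 2, phi_sq, psi_sq]
  ring

lemma T_zero (β B : ℝ) : T β B 0 = β + B := by unfold T; ring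

lemma T_one (β B : ℝ) : T β B 1 = β * φ + B * ψ := by unfold T; ring

/-- the Fibonacci numbers -/
lemma T_fib (n : ℕ) : T (1 / Real.sqrt 5) (-(1 / Real.sqrt 5)) n = (Nat.fib n : ℝ) := by
  induction n using Nat.twoStepInduction with
  | zero => rw [T_zero]; simp
  | one =>
    rw [T_one]
    have := sqrt5_pos.ne'
    unfold φ ψ
    rw [Nat.fib_one]
    field_simp
    push_cast
    ring
  | more n h1 h2 =>
    rw [T_rec, h1, h2, Nat.fib_add_two]
    push_cast
    ring

/-- the Lucas numbers -/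
lemma T_luc (n : ℕ) : T 1 1 n = (L n : ℝ) := by
  induction n using Nat.twoStepInduction with
  | zero => rw [T_zero]; norm_num [L]
  | one =>
    rw [T_one, one_mul, one_mul, phi_add]
    norm_num [L]
  | more n h1 h2 =>
    rw [T_rec, h1, h2]
    show _ = ((L (n + 1) + L n : ℕ) : ℝ)
    push_cast
    ring

lemma fib_eq (n : ℕ) : Pool.Agent.H447R2.ML.U 1 n = Nat.fib n := by
  induction n using Nat.twoStepInduction with
  | zero => rfl
  | one => rfl
  | more n h1 h2 =>
    rw [Pool.Agent.H447R2.ML.U_add_two, h1, h2, Nat.fib_add_two]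
    ring

lemma luc_eq (n : ℕ) : Pool.Agent.H447R2.ML.V 1 n = L n := by
  induction n using Nat.twoStepInduction with
  | zero => rfl
  | one => rfl
  | more n h1 h2 =>
    show _ = L (n + 1) + L n
    rw [Pool.Agent.H447R2.ML.V_add_two, h1, h2]
    ring

/-- The Fibonacci numbers. -/
lemma W_fib {p : ℕ} (hp : p.Prime) (h5 : 5 < p) :
    W (1 / Real.sqrt 5) (-(1 / Real.sqrt 5)) p = Nat.fib p := by
  have hd : ¬ p ∣ 1 ^ 2 + 4 := by
    intro h
    have := Nat.le_of_dvd (by norm_num) h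
    omega
  have h := Pool.Agent.H447R2.ML.rough_U 1 one_pos hp (by omega) hd
    (x := T (1 / Real.sqrt 5) (-(1 / Real.sqrt 5)) p) (by rw [T_fib, fib_eq])
  rw [fib_eq] at h
  exact h

/-- The Lucas numbers. -/
lemma W_luc {p : ℕ} (hp : p.Prime) (h5 : 5 < p) : W 1 1 p = L p := by
  have hd : ¬ p ∣ 1 := fun h => hp.one_lt.ne' (Nat.dvd_one.1 h)
  have h : Pool.Agent.H305R2.roughPart p ⌊T 1 1 p⌋₊ = L p := by
    rw [T_luc, Nat.floor_natCast]
    refine Pool.Agent.H447R2.ML.roughPart_eq_self ?_ fun q hq h => ?_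
    · rw [← luc_eq]
      exact (Pool.Agent.H447R2.ML.V_pos 1 p one_pos).ne'
    · rw [← luc_eq] at h
      exact Pool.Agent.H447R2.ML.lt_of_dvd_V 1 hp (by omega) hd hq
        (fun h' => hq.one_lt.ne' (Nat.dvd_one.1 h')) h
  exact h

lemma companion (β B : ℝ) (n : ℕ) :
    T (Real.sqrt 5 * β) (-(Real.sqrt 5 * B)) (n + 1) = T β B n + T β B (n + 2) := by
  have h1 : φ ^ 2 + 1 = Real.sqrt 5 * φ := by unfold φ; nlinarith [sqrt5_sq]
  have h2 : ψ ^ 2 + 1 = -(Real.sqrt 5 * ψ) := by unfold ψ; nlinarith [sqrt5_sq]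
  unfold T
  have e1 : β * φ ^ n + B * ψ ^ n + (β * φ ^ (n + 2) + B * ψ ^ (n + 2)) =
      β * φ ^ n * (φ ^ 2 + 1) + B * ψ ^ n * (ψ ^ 2 + 1) := by ring
  rw [e1, h1, h2]
  ring

/-- **Main theorem.** -/
theorem result :
    -- the Fibonacci and the Lucas numbers, and the companion of a solution
    (∀ n : ℕ, T (1 / Real.sqrt 5) (-(1 / Real.sqrt 5)) n = Nat.fib n ∧
      T (Real.sqrt 5 * (1 / Real.sqrt 5)) 1 n = L n) ∧
    (∀ p : ℕ, p.Prime → 5 < p → W (1 / Real.sqrt 5) (-(1 / Real.sqrt 5)) p = Nat.fib p ∧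
      W (Real.sqrt 5 * (1 / Real.sqrt 5)) 1 p = L p) ∧
    (∀ (β B : ℝ) (n : ℕ),
      T (Real.sqrt 5 * β) (-(Real.sqrt 5 * B)) (n + 1) = T β B n + T β B (n + 2)) ∧
    -- almost every amplitude: finitely many common exponents
    (∀ B B' : ℝ, ∀ᵐ β : ℝ, 0 < β →
      {p : ℕ | p.Prime ∧ (W β B p).Prime ∧ (W (Real.sqrt 5 * β) B' p).Prime}.Finite) ∧
    -- the exponents of the two kinds avoid each other
    (∀ B B' : ℝ, ∀ᵐ β : ℝ, 0 < β → ∀ ε : ℝ, 0 < ε → ∃ P : ℕ, ∀ p q : ℕ, P ≤ p → P ≤ q →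
      p.Prime → q.Prime → (W β B p).Prime → (W (Real.sqrt 5 * β) B' q).Prime →
      ((min p q : ℕ) : ℝ) / Real.log ((min p q : ℕ) : ℝ) ^ (1 + ε) ≤ |(q : ℝ) - p|) := by
  have hone : Real.sqrt 5 * (1 / Real.sqrt 5) = 1 := by
    have := sqrt5_pos.ne'
    field_simp
  have hδ : φ - ψ = Real.sqrt 5 := by unfold φ ψ; ring
  have h5 : (1 : ℝ) ≤ Real.sqrt 5 := by
    rw [← Real.sqrt_one]
    exact Real.sqrt_le_sqrt (by norm_num)
  have h5' : Real.sqrt 5 ≤ 3 := by
    rw [Real.sqrt_le_left (by norm_num)]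
    norm_num
  have hav : ∀ B B' : ℝ, ∀ᵐ β : ℝ, 0 < β → ∀ ε : ℝ, 0 < ε → ∃ P : ℕ, ∀ p q : ℕ, P ≤ p → P ≤ q →
      p.Prime → q.Prime → (W β B p).Prime → (W (Real.sqrt 5 * β) B' q).Prime →
      ((min p q : ℕ) : ℝ) / Real.log ((min p q : ℕ) : ℝ) ^ (1 + ε) ≤ |(q : ℝ) - p| := by
    intro B B'
    exact Pool.Agent.V60.Gap.avoid_unit (s := 1) (t := 1) (ρ := Real.sqrt 5) one_lt_phi phi_add
      phi_mul le_rfl le_rfl (by rw [hδ]; push_cast; ring) h5
      (by rw [phi_sq]; unfold φ; linarith) B B'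
  refine ⟨fun n => ⟨T_fib n, by rw [hone]; exact T_luc n⟩,
    fun p hp h => ⟨W_fib hp h, by rw [hone]; exact W_luc hp h⟩, companion, fun B B' => ?_, hav⟩
  filter_upwards [hav B B'] with β h hβ
  obtain ⟨P, hP⟩ := h hβ 1 one_pos
  refine (Set.finite_Iio (P + 3)).subset ?_
  rintro n ⟨hn, h1, h2⟩
  simp only [Set.mem_Iio]
  by_contra hc
  rw [not_lt] at hc
  have h3 := hP n n (by omega) (by omega) hn hn h1 h2
  rw [sub_self, abs_zero, min_self] at h3
  have hn3 : (3 : ℝ) ≤ n := by exact_mod_cast (by omega : 3 ≤ n)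
  have h4 : 0 < Real.log n := Real.log_pos (by linarith)
  have h6 : 0 < (n : ℝ) / Real.log n ^ (1 + 1 : ℝ) :=
    div_pos (by linarith) (Real.rpow_pos_of_pos h4 _)
  linarith

end Pool.Agent.Results.MP_5893d7_nt.FibonacciAndLucas
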