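import Mathlib
import Pool.Agent.V1193.GR.E

set_option autoImplicit false

/-!
# Fibonacci and Lucas primes: the law of the largest exponent in a set, for the golden base

For `n` odd the Lucas number `L n` is the largest integer below `φ ^ n` and the Fibonacci number `F n`
is the smallest integer that is at least `φ ^ n / √5`, `φ = (1 + √5) / 2`.  For a real amplitude
`β > 0` let `V β n` be the `n`-rough part (the product, with multiplicity, of the prime factors larger
than `n`) of the largest integer below `β φ ^ n`, and let `U δ n` be the `n`-rough part of the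
smallest integer that is at least `δ φ ^ n`; so `V 1 n = L n` and `U (1 / √5) n = F n` for all primes
`n > 5`.  For a set `S` of exponents let `NL S β` and `NF S β` be the sets of the `n ∈ S` with
`V β n`, respectively `U (β / √5) n`, prime.

The base `φ` is fixed and only `β` is random.  For every infinite set `S` with `∑ log n / n < ∞`
(the sum over `S`) we find the exact asymptotic law of the largest element of `NL S β`, of `NF S β`
and (for odd exponents) of their union, where the constant is the sum of the two others: the same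
amplitude drives both kinds of exponents, but large exponents of the two kinds do not occur together.
-/

namespace Pool.Agent.Results.MP_5893d7_nt.LastExponents

open Filter Topology MeasureTheory

/-- The Lucas numbers. -/
def L : ℕ → ℕ
  | 0 => 2
  | 1 => 1
  | (n + 2) => L (n + 1) + L n

/-- The golden ratio. -/
noncomputable def φ : ℝ := (1 + Real.sqrt 5) / 2

/-- The product, with multiplicity, of the prime factors of `m` that are larger than `p`. -/
def roughPart (p m : ℕ) : ℕ := (m.primeFactorsList.filter (fun r => p < r)).prod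

/-- The `n`-rough part of the largest integer below `β * φ ^ n`. -/
noncomputable def V (β : ℝ) (n : ℕ) : ℕ := roughPart n (⌈β * φ ^ n⌉₊ - 1)

/-- The `n`-rough part of the smallest integer that is at least `δ * φ ^ n`. -/
noncomputable def U (δ : ℝ) (n : ℕ) : ℕ := roughPart n ⌈δ * φ ^ n⌉₊

/-- The exponents in `S` of the Lucas kind. -/
def NL (S : Set ℕ) (β : ℝ) : Set ℕ := {n | n ∈ S ∧ (V β n).Prime}

/-- The exponents in `S` of the Fibonacci kind. -/
def NF (S : Set ℕ) (β : ℝ) : Set ℕ := {n | n ∈ S ∧ (U (β / Real.sqrt 5) n).Prime}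

/-- The weight `log n / n` on `S`. -/
noncomputable def w (S : Set ℕ) : ℕ → ℝ := S.indicator fun n : ℕ => Real.log n / n

/-- The sum of the weights from `n` on. -/
noncomputable def tail (S : Set ℕ) (n : ℕ) : ℝ := ∑' k : ℕ, w S (n + k)

/-- The laws for random sets `E y` of exponents, `y` in the window `(u, v]`, with the constant `c`:
the measures of `n ∈ E`, of `n = max E` (as `n → ∞` in `S`), of `E` having an element `≥ n`, the mean
number of these elements, and the measure of `E` having two elements `≥ n`. -/
def Law (S : Set ℕ) (E : ℝ → Set ℕ) (u v c : ℝ) : Prop :=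
  Tendsto (fun n : ℕ => volume.real {y ∈ Set.Ioc u v | n ∈ E y} / (Real.log n / n))
    (atTop ⊓ 𝓟 S) (𝓝 c) ∧
  Tendsto (fun n : ℕ => volume.real {y ∈ Set.Ioc u v | IsGreatest (E y) n} / (Real.log n / n))
    (atTop ⊓ 𝓟 S) (𝓝 c) ∧
  Tendsto (fun n : ℕ => volume.real {y ∈ Set.Ioc u v | ∃ m ∈ E y, n ≤ m} / tail S n)
    atTop (𝓝 c) ∧
  Tendsto (fun n : ℕ => (∫ y in Set.Ioc u v, ((E y ∩ Set.Ici n).ncard : ℝ)) / tail S n)
    atTop (𝓝 c) ∧
  ∃ K : ℝ, ∀ᶠ n : ℕ in atTop,
    volume.real {y ∈ Set.Ioc u v | ∃ p ∈ E y, ∃ q ∈ E y, n ≤ p ∧ p < q} ≤ K * tail S n ^ 2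

/-- The constant. -/
noncomputable def C (u v : ℝ) : ℝ := Real.exp Real.eulerMascheroniConstant * (v - u) / Real.log φ

lemma L_eq (n : ℕ) : L n = Pool.Agent.V1193.GR.Fib.L n := by
  induction n using Nat.twoStepInduction with
  | zero => rfl
  | one => rfl
  | more n h1 h2 =>
    show L (n + 1) + L n = Pool.Agent.V1193.GR.Fib.L (n + 1) + Pool.Agent.V1193.GR.Fib.L n
    rw [h1, h2]

/-- **Main theorem.** -/
theorem result :
    -- the Lucas and the Fibonacci numbers, and the first question
    (∀ n : ℕ, n.Prime → 5 < n → V 1 n = L n ∧ U (1 / Real.sqrt 5) n = Nat.fib n) ∧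
    ({n : ℕ | (Nat.fib n).Prime}.Infinite ↔ (NF {n | n.Prime} 1).Infinite) ∧
    -- the laws of the largest exponents
    (∀ S : Set ℕ, S.Infinite → Summable (w S) → ∀ u v : ℝ, u < v →
      Law S (fun y => NL S (Real.exp y)) u v (C u v) ∧
      Law S (fun y => NF S (Real.exp y)) u v (C u v) ∧
      ((∀ n ∈ S, Odd n) →
        Law S (fun y => NL S (Real.exp y) ∪ NF S (Real.exp y)) u v (2 * C u v))) ∧
    -- one exponent of both kinds
    (∀ u v : ℝ, u < v → ∃ K : ℝ, ∀ᶠ n : ℕ in atTop,
      volume.real {y ∈ Set.Ioc u v | n ∈ NL Set.univ (Real.exp y) ∧ n ∈ NF Set.univ (Real.exp y)} ≤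
        K * (Real.log n / n) ^ 2) := by
  refine ⟨fun n hn h5 => ?_, Pool.Agent.V1193.GR.Fib.q1,
    fun S hinf hsum u v huv => Pool.Agent.V1193.GR.Fib.laws hinf hsum huv,
    fun u v huv => Pool.Agent.V1193.GR.Fib.simultaneous huv⟩
  rw [L_eq]
  exact Pool.Agent.V1193.GR.Fib.special hn h5

end Pool.Agent.Results.MP_5893d7_nt.LastExponents
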