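import Mathlib
import Pool.Agent.V60.Gap.IrrSet
import Pool.Agent.H447R2.ML.Spec

set_option autoImplicit false

/-!
# Real solutions of the Fibonacci recurrence: no small multiplicative gaps between the exponents

The real solutions of `T (n + 2) = T (n + 1) + T n` are the sequences
`T β B n = β φ ^ n + B ψ ^ n` with `φ = (1 + √5) / 2`, `ψ = (1 - √5) / 2`; the Fibonacci numbers are
the solution with `β = 1 / √5`, `B = -1 / √5`, the Lucas numbers the one with `β = B = 1`.  For a
prime `p` let `W β B p` be the `p`-rough part (the product, with multiplicity, of the prime factors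
larger than `p`) of `⌊T β B p⌋`; for the Fibonacci and the Lucas numbers this is the number with the
index `p` itself, for all primes `p > 5`.  The exponents are the primes `p` with `W β B p` prime; their
number up to `n` is asymptotic to `(e ^ γ / log φ) log n` for every `B` and almost every `β > 0`
(`GoldenBase`, starting library).

We prove that for every `B` and almost every `β > 0` any two exponents `p < q` satisfy
`q - p ≥ p / (log p) ^ (1 + ε)`, for every `ε > 0` and all `p ≥ P(β, B, ε)`, without exception; and that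
any set `D` of pairs `p < q ≤ 2 p` with a finite sum of `(log p / p) ^ 2` contains only finitely many
pairs of exponents.

Proof.  The pair sieve of the library for a base without multiplicative coincidences
(`Pool.Agent.W66.GE`), without its diagonal term, gives that `p` and `q` are both exponents on a set of
`log β` of measure at most a constant times `(log p / p) ^ 2`; then the theorem of Brun and Titchmarsh
and the lemma of Borel and Cantelli.
-/

namespace Pool.Agent.Results.MP_5893d7_nt.SmallGaps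

open Filter Topology MeasureTheory

/-- The Lucas numbers. -/
def L : ℕ → ℕ
  | 0 => 2
  | 1 => 1
  | (n + 2) => L (n + 1) + L n

/-- The golden ratio. -/
noncomputable def φ : ℝ := (1 + Real.sqrt 5) / 2

/-- The conjugate of the golden ratio. -/
noncomputable def ψ : ℝ := (1 - Real.sqrt 5) / 2

/-- The real solutions of the Fibonacci recurrence. -/
noncomputable def T (β B : ℝ) (n : ℕ) : ℝ := β * φ ^ n + B * ψ ^ n

/-- The product, with multiplicity, of the prime factors of `m` that are larger than `p`. -/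
def roughPart (p m : ℕ) : ℕ := (m.primeFactorsList.filter (fun r => p < r)).prod

/-- The `p`-rough part of `⌊T β B p⌋`. -/
noncomputable def W (β B : ℝ) (p : ℕ) : ℕ := roughPart p ⌊T β B p⌋₊

/-- The exponents: the primes `p` with `W β B p` prime. -/
def Exponent (β B : ℝ) (p : ℕ) : Prop := p.Prime ∧ (W β B p).Prime

lemma sqrt5_sq : Real.sqrt 5 ^ 2 = 5 := Real.sq_sqrt (by norm_num)

lemma sqrt5_pos : 0 < Real.sqrt 5 := Real.sqrt_pos.2 (by norm_num)

lemma one_lt_phi : 1 < φ := by
  unfold φ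
  nlinarith [sqrt5_sq, sqrt5_pos]

lemma phi_add : φ + ψ = ((1 : ℤ) : ℝ) := by unfold φ ψ; push_cast; ring

lemma phi_mul : φ * ψ = -1 := by unfold φ ψ; nlinarith [sqrt5_sq]

lemma phi_sq : φ ^ 2 = φ + 1 := by unfold φ; nlinarith [sqrt5_sq]

lemma psi_sq : ψ ^ 2 = ψ + 1 := by unfold ψ; nlinarith [sqrt5_sq]

lemma T_rec (β B : ℝ) (n : ℕ) : T β B (n + 2) = T β B (n + 1) + T β B n := by
  unfold T
  rw [pow_add φ n 2, pow_add ψ n 2, phi_sq, psi_sq]
  ring

lemma T_zero (β B : ℝ) : T β B 0 = β + B := by unfold T; ring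

lemma T_one (β B : ℝ) : T β B 1 = β * φ + B * ψ := by unfold T; ring

/-- the Fibonacci numbers -/
lemma T_fib (n : ℕ) : T (1 / Real.sqrt 5) (-(1 / Real.sqrt 5)) n = (Nat.fib n : ℝ) := by
  induction n using Nat.twoStepInduction with
  | zero => rw [T_zero]; simp
  | one =>
    rw [T_one]
    have := sqrt5_pos.ne'
    unfold φ ψ
    rw [Nat.fib_one]
    field_simp
    push_cast
    ring
  | more n h1 h2 =>
    rw [T_rec, h1, h2, Nat.fib_add_two]
    push_cast
    ring

/-- the Lucas numbers -/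
lemma T_luc (n : ℕ) : T 1 1 n = (L n : ℝ) := by
  induction n using Nat.twoStepInduction with
  | zero => rw [T_zero]; norm_num [L]
  | one =>
    rw [T_one, one_mul, one_mul, phi_add]
    norm_num [L]
  | more n h1 h2 =>
    rw [T_rec, h1, h2]
    show _ = ((L (n + 1) + L n : ℕ) : ℝ)
    push_cast
    ring

lemma fib_eq (n : ℕ) : Pool.Agent.H447R2.ML.U 1 n = Nat.fib n := by
  induction n using Nat.twoStepInduction with
  | zero => rfl
  | one => rfl
  | more n h1 h2 =>
    rw [Pool.Agent.H447R2.ML.U_add_two, h1, h2, Nat.fib_add_two]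
    ring

lemma luc_eq (n : ℕ) : Pool.Agent.H447R2.ML.V 1 n = L n := by
  induction n using Nat.twoStepInduction with
  | zero => rfl
  | one => rfl
  | more n h1 h2 =>
    show _ = L (n + 1) + L n
    rw [Pool.Agent.H447R2.ML.V_add_two, h1, h2]
    ring

/-- The Fibonacci numbers. -/
lemma W_fib {p : ℕ} (hp : p.Prime) (h5 : 5 < p) :
    W (1 / Real.sqrt 5) (-(1 / Real.sqrt 5)) p = Nat.fib p := by
  have hd : ¬ p ∣ 1 ^ 2 + 4 := by
    intro h
    have := Nat.le_of_dvd (by norm_num) h
    omega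
  have h := Pool.Agent.H447R2.ML.rough_U 1 one_pos hp (by omega) hd
    (x := T (1 / Real.sqrt 5) (-(1 / Real.sqrt 5)) p) (by rw [T_fib, fib_eq])
  rw [fib_eq] at h
  exact h

/-- The Lucas numbers. -/
lemma W_luc {p : ℕ} (hp : p.Prime) (h5 : 5 < p) : W 1 1 p = L p := by
  have hd : ¬ p ∣ 1 := fun h => hp.one_lt.ne' (Nat.dvd_one.1 h)
  have h : Pool.Agent.H305R2.roughPart p ⌊T 1 1 p⌋₊ = L p := by
    rw [T_luc, Nat.floor_natCast]
    refine Pool.Agent.H447R2.ML.roughPart_eq_self ?_ fun q hq h => ?_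
    · rw [← luc_eq]
      exact (Pool.Agent.H447R2.ML.V_pos 1 p one_pos).ne'
    · rw [← luc_eq] at h
      exact Pool.Agent.H447R2.ML.lt_of_dvd_V 1 hp (by omega) hd hq
        (fun h' => hq.one_lt.ne' (Nat.dvd_one.1 h')) h
  exact h

/-- **Main theorem.** -/
theorem result :
    -- the Fibonacci and the Lucas numbers
    (∀ n : ℕ, T (1 / Real.sqrt 5) (-(1 / Real.sqrt 5)) n = Nat.fib n ∧ T 1 1 n = L n) ∧
    (∀ p : ℕ, 5 < p →
      (Exponent (1 / Real.sqrt 5) (-(1 / Real.sqrt 5)) p ↔ p.Prime ∧ (Nat.fib p).Prime) ∧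
      (Exponent 1 1 p ↔ p.Prime ∧ (L p).Prime)) ∧
    -- close exponents
    (∀ B : ℝ, ∀ᵐ β : ℝ, 0 < β → ∀ ε : ℝ, 0 < ε → ∃ P : ℕ, ∀ p q : ℕ, P ≤ p → p < q →
      Exponent β B p → Exponent β B q → (p : ℝ) / Real.log p ^ (1 + ε) ≤ q - p) ∧
    -- sets of pairs of exponents
    (∀ D : Set (ℕ × ℕ), (∀ z ∈ D, z.1 < z.2 ∧ z.2 ≤ 2 * z.1) →
      Summable (fun z : D => (Real.log z.1.1 / z.1.1) ^ 2) →
      ∀ B : ℝ, ∀ᵐ β : ℝ, 0 < β →
        {z | z ∈ D ∧ Exponent β B z.1 ∧ Exponent β B z.2}.Finite) := by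
  refine ⟨fun n => ⟨T_fib n, T_luc n⟩, fun p h5 => ⟨?_, ?_⟩, fun B => ?_, fun D hD hs B => ?_⟩
  · unfold Exponent
    refine and_congr_right fun hp => ?_
    rw [W_fib hp h5]
  · unfold Exponent
    refine and_congr_right fun hp => ?_
    rw [W_luc hp h5]
  · filter_upwards [Pool.Agent.V60.Gap.sparse_unit one_lt_phi phi_add phi_mul B] with β h hβ ε hε
    obtain ⟨P, hP⟩ := h hβ ε hε
    exact ⟨P, fun p q hp hpq hep heq => hP p q hp hep.1 heq.1 hpq hep.2 heq.2⟩
  · filter_upwards [Pool.Agent.V60.Gap.set_unit one_lt_phi phi_add phi_mul B D hD hs] with β h hβ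
    refine (h hβ).subset ?_
    rintro z ⟨hz, h1, h2⟩
    exact ⟨hz, h1.2, h2.2⟩

end Pool.Agent.Results.MP_5893d7_nt.SmallGaps
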